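import Pool.Agent.H717R2.ON3.Defs

/-! # Task ES1: Edwards–Sokal representation of a finite Ising model (STUB for the theorems) -/

set_option autoImplicit false

noncomputable section

namespace Pool.Agent.H717R2.ON3

open Classical in
/-- `x` and `y` are connected by the edges of `ω` -/
def conn {V ι : Type} (G : Gr V ι) (ω : Finset ι) (x y : V) : Prop :=
  Relation.ReflTransGen
    (fun u v => ∃ e ∈ ω, (G.s e = u ∧ G.t e = v) ∨ (G.s e = v ∧ G.t e = u)) x y

/-- the sign of a Boolean -/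
def sg (b : Bool) : ℝ := if b then 1 else -1

/-- Ising weight -/
def isw {V ι : Type} [Fintype ι] (G : Gr V ι) (J : ι → ℝ) (τ : V → Bool) : ℝ :=
  Real.exp (∑ e, J e * (sg (τ (G.s e)) * sg (τ (G.t e))))

/-- conditional probability that an edge is open, given the signs -/
def opn {V ι : Type} (G : Gr V ι) (J : ι → ℝ) (τ : V → Bool) (e : ι) : ℝ :=
  if τ (G.s e) = τ (G.t e) then 1 - Real.exp (-2 * J e) else 0

open Classical in
/-- probability that `x` and `y` are connected by open edges in `T`, if the edges of `T` are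
independently open with the probabilities `a` -/
def perc {V ι : Type} (G : Gr V ι) (T : Finset ι) (a : ι → ℝ) (x y : V) : ℝ :=
  ∑ ω ∈ T.powerset, (∏ e ∈ ω, a e) * (∏ e ∈ T \ ω, (1 - a e)) *
    (if conn G ω x y then 1 else 0)

open Classical in
/-- edges with no endpoint in `B` -/
def outE {V ι : Type} [Fintype ι] (G : Gr V ι) (B : Finset V) : Finset ι :=
  Finset.univ.filter fun e => G.s e ∉ B ∧ G.t e ∉ B

open Classical in
/-- last exit decomposition -/
theorem es_split {V ι : Type} [Fintype V] [DecidableEq V] [Fintype ι] (G : Gr V ι)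
    (J : ι → ℝ) (hJ : ∀ e, 0 ≤ J e) (B : Finset V) (p y : V) (hp : p ∈ B) (hy : y ∉ B) :
    ∑ τ, isw G J τ * (sg (τ p) * sg (τ y)) ≤
      ∑ e ∈ Finset.univ.filter (fun e => G.s e ∈ B ∧ G.t e ∉ B), ∑ τ, isw G J τ *
        (sg (τ p) * sg (τ (G.s e)) * opn G J τ e * perc G (outE G B) (opn G J τ) (G.t e) y) +
      ∑ e ∈ Finset.univ.filter (fun e => G.t e ∈ B ∧ G.s e ∉ B), ∑ τ, isw G J τ *
        (sg (τ p) * sg (τ (G.t e)) * opn G J τ e * perc G (outE G B) (opn G J τ) (G.s e) y) := by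
  sorry

theorem es_mono {V ι : Type} [Fintype V] [DecidableEq V] [Fintype ι] (G : Gr V ι)
    (J : ι → ℝ) (hJ : ∀ e, 0 ≤ J e) (T : Finset ι) (w y : V) :
    ∑ τ, isw G J τ * perc G T (opn G J τ) w y ≤ ∑ τ, isw G J τ * (sg (τ w) * sg (τ y)) := by
  sorry

theorem es_nonneg {V ι : Type} [Fintype V] [DecidableEq V] [Fintype ι] (G : Gr V ι)
    (J : ι → ℝ) (hJ : ∀ e, 0 ≤ J e) (w y : V) :
    0 ≤ ∑ τ, isw G J τ * (sg (τ w) * sg (τ y)) := by
  sorry

theorem perc_nonneg {V ι : Type} (G : Gr V ι) (T : Finset ι) (a : ι → ℝ)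
    (ha : ∀ e, 0 ≤ a e) (ha1 : ∀ e, a e ≤ 1) (x y : V) : 0 ≤ perc G T a x y := by
  sorry

theorem perc_le_one {V ι : Type} (G : Gr V ι) (T : Finset ι) (a : ι → ℝ)
    (ha : ∀ e, 0 ≤ a e) (ha1 : ∀ e, a e ≤ 1) (x y : V) : perc G T a x y ≤ 1 := by
  sorry

theorem perc_congr {V ι : Type} (G : Gr V ι) (T : Finset ι) {a a' : ι → ℝ}
    (h : ∀ e ∈ T, a e = a' e) (x y : V) : perc G T a x y = perc G T a' x y := by
  sorry

end Pool.Agent.H717R2.ON3
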