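import Pool.Agent.H717R2.ON3.Fun3
import Pool.Agent.H717R2.ON3.Fun4
import Pool.Agent.H717R2.ON3.Geo2
import Pool.Agent.H717R2.ON3.Geo3

/-! # The kernel of one scale -/

set_option autoImplicit false

noncomputable section

namespace Pool.Agent.H717R2.ON3

open MvPolynomial Pool.Agent.H5R2.ON

/-- the kernel of the scale `l` -/
def kl {L : ℕ} [NeZero L] (R : ℝ) (p : Tor L) (l : ℝ) (x y : Tor L) : ℝ :=
  ∑ a ∈ ball p R, ka R p l a x y

theorem ka_anti {L : ℕ} [NeZero L] (R : ℝ) (p : Tor L) (l : ℝ) (a : Tor L) :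
    Anti (ka R p l a) := kp_anti _ _ _

theorem kl_anti {L : ℕ} [NeZero L] (R : ℝ) (p : Tor L) (l : ℝ) : Anti (kl R p l) := by
  intro x y
  unfold kl
  rw [← Finset.sum_neg_distrib]
  exact Finset.sum_congr rfl fun a _ => ka_anti R p l a x y

theorem kl_supp {L : ℕ} [NeZero L] {R l : ℝ} (hl : 1 ≤ l) (hR : 100 * l ≤ R) {p x y : Tor L}
    (h : kl R p l x y ≠ 0) :
    R / 6 ≤ tnorm (x - p) ∧ R / 6 ≤ tnorm (y - p) ∧
    tnorm (x - p) ≤ 3 * R / 5 ∧ tnorm (y - p) ≤ 3 * R / 5 := by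
  obtain ⟨a, _, ha⟩ := Finset.exists_ne_zero_of_sum_ne_zero h
  have := ka_supp hl hR ha
  exact ⟨this.2.2.1, this.2.2.2.1, this.2.2.2.2.1, this.2.2.2.2.2.1⟩

theorem kl_near {L : ℕ} [NeZero L] {R l : ℝ} (hl : 1 ≤ l) (hR : 100 * l ≤ R) (p : Tor L)
    {x y : Tor L} (hxy : tnorm (x - y) ≤ l) : kl R p l x y = fR R p y - fR R p x :=
  ka_sum hl hR p hxy

theorem kl_edge {L : ℕ} [NeZero L] {R l : ℝ} (hl : 1 ≤ l) (hR : 100 * l ≤ R) (p : Tor L)
    (e : Tor L × Bool) : kl R p l ((gT L).s e) ((gT L).t e) = grad (gT L) (fR R p) e := by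
  have h := tnorm_edge e
  rw [tnorm_sub_comm] at h
  exact kl_near hl hR p (h.trans hl)

theorem mem_ball {L : ℕ} [NeZero L] {p x : Tor L} {R : ℝ} :
    x ∈ ball p R ↔ tnorm (x - p) ≤ R := by
  simp [ball]

end Pool.Agent.H717R2.ON3
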