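import Pool.Agent.H717R2.ON3.Mainb0

/-! # Task MAINB1: the bound on one scale (STUB) -/

set_option autoImplicit false

noncomputable section

namespace Pool.Agent.H717R2.ON3

open MvPolynomial Pool.Agent.H5R2.ON

theorem single_scale (β : ℝ) (hβ : 0 ≤ β) : ∃ C : ℝ, 0 < C ∧ ∀ R l : ℝ, 1 ≤ l →
    100 * l ≤ R → ∀ (L : ℕ) [NeZero L], 2 * R < L → ∀ (p : Tor L)
      (W : WFun (gT L) β (ball p R)), W.E (UU (gT L) β (kl R p l) 2 ^ 2) ≤ C := by
  sorry

end Pool.Agent.H717R2.ON3
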