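import Pool.Agent.H717R2.ON3.Mainb0

/-! # Task MAINB2: correlation of two scales (STUB) -/

set_option autoImplicit false

noncomputable section

namespace Pool.Agent.H717R2.ON3

open MvPolynomial Pool.Agent.H5R2.ON

theorem cross_scale (β : ℝ) (hβ : 0 ≤ β) : ∃ C : ℝ, 0 < C ∧ ∀ R l l' δ : ℝ, 1 ≤ l →
    16 * l ≤ l' → 100 * l' ≤ R → 0 ≤ δ → ∀ (L : ℕ) [NeZero L], 2 * R < L → ∀ (p : Tor L)
      (W : WFun (gT L) β (ball p R)),
      (∀ a : Tor L, ∃ φ : Tor L → ℝ, (∀ x, tnorm (x - a) ≤ 7 * l → φ x = 1) ∧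
        (∀ x, R / 5 ≤ tnorm (x - a) → φ x = 0) ∧ En (gT L) φ ≤ δ) →
      |W.E (UU (gT L) β (kl R p l') 2 * UU (gT L) β (kl R p l) 2)| ≤ C * √δ := by
  sorry

end Pool.Agent.H717R2.ON3
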